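import Mathlib

open Set
open scoped Pointwise

namespace Pool.Agent.Results.MP_deb208_al.Disproof

/-- finitely supported functions `ℚ → ZMod 2` -/
abbrev X := ℚ →₀ ZMod 2

/-- the points: leaves of the tree -/
abbrev Om := Option X

/-- the cone of all functions agreeing with `f` on `I` -/
def cone (f : X) (I : Set ℚ) : Set Om := {w | ∃ g : X, w = some g ∧ ∀ q ∈ I, g q = f q}

/-- half-trees -/
def HT : Set (Set Om) := {E | ∃ (f : X) (I : Set ℚ), IsLowerSet I ∧ (E = cone f I ∨ E = (cone f I)ᶜ)}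

theorem none_notMem_cone (f : X) (I : Set ℚ) : (none : Om) ∉ cone f I := by
  rintro ⟨g, h, _⟩
  cases h

theorem some_mem_cone {f g : X} {I : Set ℚ} : (some g : Om) ∈ cone f I ↔ ∀ q ∈ I, g q = f q := by
  constructor
  · rintro ⟨g', h, h'⟩
    rw [Option.some_inj.1 h]; exact h'
  · intro h; exact ⟨g, rfl, h⟩

theorem cone_mem {f : X} {I : Set ℚ} (hI : IsLowerSet I) : cone f I ∈ HT := ⟨f, I, hI, Or.inl rfl⟩

theorem compl_mem {E : Set Om} (hE : E ∈ HT) : Eᶜ ∈ HT := by
  obtain ⟨f, I, hI, h | h⟩ := hE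
  · exact ⟨f, I, hI, Or.inr (by rw [h])⟩
  · exact ⟨f, I, hI, Or.inl (by rw [h, compl_compl])⟩

/-- laminarity relation -/
def Lam (E F : Set Om) : Prop := E ⊆ F ∨ F ⊆ E ∨ Disjoint E F ∨ E ∪ F = univ

theorem Lam.symm {E F : Set Om} (h : Lam E F) : Lam F E := by
  rcases h with h | h | h | h
  · exact Or.inr (Or.inl h)
  · exact Or.inl h
  · exact Or.inr (Or.inr (Or.inl h.symm))
  · exact Or.inr (Or.inr (Or.inr (by rw [union_comm]; exact h)))

theorem Lam.compl_left {E F : Set Om} (h : Lam E F) : Lam Eᶜ F := by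
  rcases h with h | h | h | h
  · right; right; right
    rw [eq_univ_iff_forall]
    intro x
    by_cases hx : x ∈ E
    · exact Or.inr (h hx)
    · exact Or.inl hx
  · right; right; left
    rw [disjoint_left]
    intro x hx hx'
    exact hx (h hx')
  · right; left
    intro x hx hx'
    exact disjoint_left.1 h hx' hx
  · left
    intro x hx
    have : x ∈ E ∪ F := by rw [h]; trivial
    rcases this with h1 | h1
    · exact absurd h1 hx
    · exact h1

theorem lam_cone {f g : X} {I J : Set ℚ} (hI : IsLowerSet I) (hJ : IsLowerSet J) :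
    Lam (cone f I) (cone g J) := by
  -- symmetric helper
  have key : ∀ (f g : X) (I J : Set ℚ), I ⊆ J → Lam (cone f I) (cone g J) := by
    intro f g I J hIJ
    by_cases h : ∀ q ∈ I, f q = g q
    · right; left
      rintro _ ⟨k, rfl, hk⟩
      exact ⟨k, rfl, fun q hq => by rw [h q hq]; exact hk q (hIJ hq)⟩
    · push Not at h
      obtain ⟨q, hq, hne⟩ := h
      right; right; left
      rw [disjoint_left]
      rintro _ ⟨k, rfl, hk⟩ ⟨k', hk', hk''⟩
      rw [Option.some_inj] at hk'
      subst hk'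
      apply hne
      rw [← hk q hq, ← hk'' q (hIJ hq)]
  rcases hI.total hJ with h | h
  · exact key f g I J h
  · exact (key g f J I h).symm

theorem lam {E F : Set Om} (hE : E ∈ HT) (hF : F ∈ HT) : Lam E F := by
  obtain ⟨f, I, hI, h⟩ := hE
  obtain ⟨g, J, hJ, h'⟩ := hF
  have h0 := lam_cone (f := f) (g := g) hI hJ
  rcases h with rfl | rfl <;> rcases h' with rfl | rfl
  · exact h0
  · exact h0.symm.compl_left.symm
  · exact h0.compl_left
  · exact h0.compl_left.symm.compl_left.symm

/-- the group of all permutations preserving the family of half-trees -/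
def G : Subgroup (Equiv.Perm Om) := MulAction.stabilizer (Equiv.Perm Om) HT

theorem mem_G_iff (σ : Equiv.Perm Om) : σ ∈ G ↔ ∀ E : Set Om, σ • E ∈ HT ↔ E ∈ HT := by
  unfold G
  rw [MulAction.mem_stabilizer_iff]
  constructor
  · intro h E
    constructor
    · intro h1
      rw [← h, Set.smul_mem_smul_set_iff] at h1
      exact h1
    · intro h1
      rw [← h, Set.smul_mem_smul_set_iff]
      exact h1
  · intro h
    ext E
    have h1 : σ • (σ⁻¹ • E) = E := smul_inv_smul σ E
    rw [← h1, Set.smul_mem_smul_set_iff, h]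

theorem mem_G_of (σ : Equiv.Perm Om) (h1 : ∀ E ∈ HT, σ • E ∈ HT) (h2 : ∀ E ∈ HT, σ⁻¹ • E ∈ HT) :
    σ ∈ G := by
  rw [mem_G_iff]
  intro E
  constructor
  · intro h
    have := h2 _ h
    rwa [inv_smul_smul] at this
  · exact h1 E

theorem smul_ht {σ : Equiv.Perm Om} (h : σ ∈ G) {E : Set Om} (hE : E ∈ HT) : σ • E ∈ HT :=
  ((mem_G_iff σ).1 h E).2 hE

/-- enough to test on cones -/
theorem good_of_cone (σ : Equiv.Perm Om) (h : ∀ (f : X) (I : Set ℚ), IsLowerSet I → σ • cone f I ∈ HT) :
    ∀ E ∈ HT, σ • E ∈ HT := by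
  rintro E ⟨f, I, hI, rfl | rfl⟩
  · exact h f I hI
  · rw [Set.smul_set_compl]
    exact compl_mem (h f I hI)

theorem mem_smul_iff' (σ : Equiv.Perm Om) (E : Set Om) (x : Om) : σ x ∈ σ • E ↔ x ∈ E :=
  Set.smul_mem_smul_set_iff (a := σ) (x := x)

/-- translations -/
noncomputable def tr (h : X) : Equiv.Perm Om := Equiv.optionCongr (Equiv.addRight h)

theorem tr_some (h f : X) : tr h (some f) = some (f + h) := rfl
theorem tr_none (h : X) : tr h none = none := rfl

theorem tr_inv (h : X) : (tr h)⁻¹ = tr (-h) := by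
  rw [inv_eq_iff_mul_eq_one]
  ext x : 1
  cases x with
  | none => rfl
  | some f =>
    show some (f + -h + h) = some f
    rw [neg_add_cancel_right]

theorem tr_cone (h f : X) (I : Set ℚ) : tr h • cone f I = cone (f + h) I := by
  ext w
  obtain ⟨w, rfl⟩ := (tr h).surjective w
  rw [mem_smul_iff']
  cases w with
  | none =>
    rw [tr_none]
    constructor
    · intro h1; exact absurd h1 (none_notMem_cone _ _)
    · intro h1; exact absurd h1 (none_notMem_cone _ _)
  | some g =>
    rw [tr_some, some_mem_cone, some_mem_cone]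
    simp

theorem tr_mem (h : X) : tr h ∈ G := by
  apply mem_G_of
  · apply good_of_cone
    intro f I hI
    rw [tr_cone]
    exact cone_mem hI
  · rw [tr_inv]
    apply good_of_cone
    intro f I hI
    rw [tr_cone]
    exact cone_mem hI

/-- order automorphisms of ℚ -/
noncomputable def oa (φ : ℚ ≃o ℚ) : Equiv.Perm Om := Equiv.optionCongr (Finsupp.equivCongrLeft φ.toEquiv)

theorem oa_none (φ : ℚ ≃o ℚ) : oa φ none = none := rfl

theorem oa_some (φ : ℚ ≃o ℚ) (f : X) :
    oa φ (some f) = some (Finsupp.equivMapDomain φ.toEquiv f) := rfl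

theorem oa_app (φ : ℚ ≃o ℚ) (f : X) (q : ℚ) :
    (Finsupp.equivMapDomain φ.toEquiv f) q = f (φ.symm q) := rfl

theorem oa_cone (φ : ℚ ≃o ℚ) (f : X) (I : Set ℚ) :
    oa φ • cone f I = cone (Finsupp.equivMapDomain φ.toEquiv f) (φ.symm ⁻¹' I) := by
  ext w
  obtain ⟨w, rfl⟩ := (oa φ).surjective w
  rw [mem_smul_iff']
  cases w with
  | none =>
    rw [oa_none]
    constructor
    · intro h1; exact absurd h1 (none_notMem_cone _ _)
    · intro h1; exact absurd h1 (none_notMem_cone _ _)
  | some g =>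
    rw [oa_some, some_mem_cone, some_mem_cone]
    constructor
    · intro h q hq
      rw [oa_app, oa_app]
      exact h _ hq
    · intro h q hq
      have h1 := h (φ q) (by rw [mem_preimage, OrderIso.symm_apply_apply]; exact hq)
      rw [oa_app, oa_app, OrderIso.symm_apply_apply] at h1
      exact h1

theorem oa_inv (φ : ℚ ≃o ℚ) : (oa φ)⁻¹ = oa φ.symm := by
  rw [inv_eq_iff_mul_eq_one]
  ext x : 1
  cases x with
  | none => rfl
  | some f =>
    show oa φ (oa φ.symm (some f)) = some f
    rw [oa_some, oa_some]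
    congr 1
    ext q
    rw [oa_app, oa_app]
    simp

theorem oa_mem (φ : ℚ ≃o ℚ) : oa φ ∈ G := by
  have key : ∀ φ : ℚ ≃o ℚ, ∀ E ∈ HT, oa φ • E ∈ HT := by
    intro φ
    apply good_of_cone
    intro f I hI
    rw [oa_cone]
    apply cone_mem
    intro a b hab ha
    exact hI (φ.symm.monotone hab) ha
  apply mem_G_of
  · exact key φ
  · rw [oa_inv]; exact key φ.symm

/-- `q` is the least element of the support of `f` -/
def MS (f : X) (q : ℚ) : Prop := f q ≠ 0 ∧ ∀ t < q, f t = 0

theorem MS.unique {f : X} {q q' : ℚ} (h : MS f q) (h' : MS f q') : q = q' := by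
  rcases lt_trichotomy q q' with h1 | h1 | h1
  · exact absurd (h'.2 q h1) h.1
  · exact h1
  · exact absurd (h.2 q' h1) h'.1

theorem MS.exists {f : X} (hf : f ≠ 0) : ∃ q, MS f q := by
  have h : f.support.Nonempty := Finsupp.support_nonempty_iff.2 hf
  refine ⟨f.support.min' h, ?_, ?_⟩
  · exact Finsupp.mem_support_iff.1 (f.support.min'_mem h)
  · intro t ht
    by_contra h1
    have h2 := f.support.min'_le t (Finsupp.mem_support_iff.2 h1)
    exact absurd ht (not_lt.2 h2)

theorem MS.ne_zero {f : X} {q : ℚ} (h : MS f q) : f ≠ 0 := by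
  rintro rfl
  exact h.1 rfl

theorem MS.mem_iff {f : X} {q : ℚ} (h : MS f q) {I : Set ℚ} (hI : IsLowerSet I) :
    (∀ t ∈ I, f t = 0) ↔ q ∉ I := by
  constructor
  · intro h1 h2; exact h.1 (h1 q h2)
  · intro h1 t ht
    apply h.2
    by_contra h2
    exact h1 (hI (not_lt.1 h2) ht)

/-- shift -/
noncomputable def sh (c : ℚ) (f : X) : X := Finsupp.equivMapDomain (Equiv.addRight c) f

theorem sh_app (c : ℚ) (f : X) (t : ℚ) : sh c f t = f (t - c) := by
  show f ((Equiv.addRight c).symm t) = f (t - c)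
  congr 1
  rw [Equiv.symm_apply_eq]
  simp

theorem sh_sh (c : ℚ) (f : X) : sh (-c) (sh c f) = f := by
  ext t
  rw [sh_app, sh_app]
  congr 1
  ring

theorem MS.sh {f : X} {q : ℚ} (h : MS f q) (c : ℚ) : MS (sh c f) (q + c) := by
  constructor
  · rw [sh_app]; simpa using h.1
  · intro t ht
    rw [sh_app]
    exact h.2 _ (by linarith)

open Classical in
/-- inversion swapping `none` and `some 0` -/
noncomputable def iv : Om → Om
  | none => some 0
  | some f => if hf : f ≠ 0 then some (sh (-(2 * Classical.choose (MS.exists hf))) f) else none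

theorem iv_none : iv none = some 0 := rfl

theorem iv_zero : iv (some 0) = none := by
  simp [iv]

theorem iv_some {f : X} {q : ℚ} (h : MS f q) : iv (some f) = some (sh (-(2 * q)) f) := by
  have h1 : Classical.choose (MS.exists h.ne_zero) = q :=
    (Classical.choose_spec (MS.exists h.ne_zero)).unique h
  unfold iv
  simp only [ne_eq, h.ne_zero, not_false_eq_true, dite_true]
  rw [h1]

theorem iv_iv : Function.Involutive iv := by
  intro w
  cases w with
  | none => rw [iv_none, iv_zero]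
  | some f =>
    by_cases hf : f = 0
    · subst hf
      rw [iv_zero, iv_none]
    · obtain ⟨q, hq⟩ := MS.exists hf
      rw [iv_some hq]
      have h1 := hq.sh (-(2 * q))
      rw [iv_some h1]
      congr 1
      have h2 : -(2 * (q + -(2 * q))) = - -(2 * q) := by ring
      rw [h2, sh_sh]

/-- the inversion as a permutation -/
noncomputable def ivp : Equiv.Perm Om := iv_iv.toPerm

theorem ivp_app (w : Om) : ivp w = iv w := rfl

theorem ivp_inv : ivp⁻¹ = ivp := by
  rw [inv_eq_iff_mul_eq_one]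
  ext x : 1
  exact iv_iv x

theorem ivp_cone (f : X) (I : Set ℚ) (hI : IsLowerSet I) : ivp • cone f I ∈ HT := by
  by_cases h0 : ∀ t ∈ I, f t = 0
  · -- the cone contains 0
    have hJ : IsLowerSet {t : ℚ | -t ∉ I} := by
      intro a b hab ha hb
      exact ha (hI (neg_le_neg hab) hb)
    have h1 : ivp • cone f I = (cone 0 {t : ℚ | -t ∉ I})ᶜ := by
      ext w
      obtain ⟨w, rfl⟩ := ivp.surjective w
      rw [mem_smul_iff', mem_compl_iff, ivp_app]
      cases w with
      | none =>
        rw [iv_none, some_mem_cone]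
        constructor
        · intro h; exact absurd h (none_notMem_cone _ _)
        · intro h; exact absurd (fun q _ => rfl) h
      | some g =>
        by_cases hg : g = 0
        · subst hg
          rw [iv_zero, some_mem_cone]
          constructor
          · intro _; exact none_notMem_cone _ _
          · intro _ q hq; rw [h0 q hq]; rfl
        · obtain ⟨q, hq⟩ := MS.exists hg
          rw [iv_some hq, some_mem_cone, some_mem_cone]
          have h2 := hq.sh (-(2 * q))
          have h3 := h2.mem_iff hJ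
          have h4 := hq.mem_iff hI
          have h5 : (∀ t ∈ I, g t = f t) ↔ (∀ t ∈ I, g t = 0) := by
            constructor
            · intro h t ht; rw [h t ht, h0 t ht]
            · intro h t ht; rw [h t ht, h0 t ht]
          have h6 : (∀ t ∈ {t : ℚ | -t ∉ I}, sh (-(2 * q)) g t = (0 : X) t) ↔
              (∀ t ∈ {t : ℚ | -t ∉ I}, sh (-(2 * q)) g t = 0) := Iff.rfl
          rw [h5, h4, h6, h3, mem_ofPred_eq, not_not]
          have h7 : -(q + -(2 * q)) = q := by ring
          rw [h7]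
    rw [h1]
    exact compl_mem (cone_mem hJ)
  · -- all functions in the cone have the same least support element
    have hf : f ≠ 0 := by
      rintro rfl
      exact h0 (fun _ _ => rfl)
    obtain ⟨q, hq⟩ := MS.exists hf
    have hqI : q ∈ I := by
      by_contra h
      exact h0 ((hq.mem_iff hI).2 h)
    have hJ : IsLowerSet {t : ℚ | t + 2 * q ∈ I} := by
      intro a b hab ha
      exact hI (by linarith) ha
    have hMS : ∀ g : X, (∀ t ∈ I, g t = f t) → MS g q := by
      intro g hg
      refine ⟨by rw [hg q hqI]; exact hq.1, ?_⟩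
      intro t ht
      rw [hg t (hI ht.le hqI)]
      exact hq.2 t ht
    have h1 : ivp • cone f I = cone (sh (-(2 * q)) f) {t : ℚ | t + 2 * q ∈ I} := by
      ext w
      obtain ⟨w, rfl⟩ := ivp.surjective w
      rw [mem_smul_iff', ivp_app]
      have hq' := hq.sh (-(2 * q))
      have hmem : q + -(2 * q) ∈ {t : ℚ | t + 2 * q ∈ I} := by
        rw [mem_ofPred_eq]
        have : q + -(2 * q) + 2 * q = q := by ring
        rw [this]; exact hqI
      cases w with
      | none =>
        rw [iv_none, some_mem_cone]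
        constructor
        · intro h; exact absurd h (none_notMem_cone _ _)
        · intro h
          exact absurd (h _ hmem).symm hq'.1
      | some g =>
        by_cases hg : g = 0
        · subst hg
          rw [iv_zero, some_mem_cone]
          constructor
          · intro h
            exact absurd (h q hqI).symm hq.1
          · intro h; exact absurd h (none_notMem_cone _ _)
        · obtain ⟨p, hp⟩ := MS.exists hg
          rw [iv_some hp, some_mem_cone, some_mem_cone]
          constructor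
          · intro h
            have h2 : p = q := hp.unique (hMS g h)
            subst h2
            intro t ht
            rw [sh_app, sh_app]
            apply h
            have : t - -(2 * p) = t + 2 * p := by ring
            rw [this]; exact ht
          · intro h
            have h2 : MS (sh (-(2 * p)) g) (q + -(2 * q)) := by
              refine ⟨by rw [h _ hmem]; exact hq'.1, ?_⟩
              intro t ht
              rw [h t (hJ ht.le hmem)]
              exact hq'.2 t ht
            have h3 := h2.unique (hp.sh (-(2 * p)))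
            have h4 : p = q := by linarith
            subst h4
            intro t ht
            have h5 := h (t - 2 * p) (by rw [mem_ofPred_eq, sub_add_cancel]; exact ht)
            rw [sh_app, sh_app] at h5
            have h6 : t - 2 * p - -(2 * p) = t := by ring
            rw [h6] at h5
            exact h5
    rw [h1]
    exact cone_mem hJ

theorem ivp_mem : ivp ∈ G := by
  apply mem_G_of
  · exact good_of_cone _ ivp_cone
  · rw [ivp_inv]; exact good_of_cone _ ivp_cone

/-- local surgery -/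
theorem surgery (σ : Equiv.Perm Om) (hσ : σ ∈ G) (E : Set Om) (hE : E ∈ HT) (hs : σ • E = E) :
    ∃ ρ ∈ G, (∀ x ∈ E, ρ x = σ x) ∧ ∀ x, x ∉ E → ρ x = x := by
  classical
  have hiff : ∀ x, x ∈ E ↔ σ x ∈ E := by
    intro x
    constructor
    · intro h
      rw [← hs, mem_smul_iff']; exact h
    · intro h
      rw [← hs, mem_smul_iff'] at h; exact h
  let ρ : Equiv.Perm Om := Equiv.Perm.ofSubtype (σ.subtypePerm (p := fun x => x ∈ E) (fun x => (hiff x).symm))
  have hρ1 : ∀ x ∈ E, ρ x = σ x := by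
    intro x hx
    exact Equiv.Perm.ofSubtype_apply_of_mem _ hx
  have hρ2 : ∀ x, x ∉ E → ρ x = x := by
    intro x hx
    exact Equiv.Perm.ofSubtype_apply_of_not_mem _ hx
  have hρE : ∀ x, ρ x ∈ E ↔ x ∈ E := by
    intro x
    by_cases hx : x ∈ E
    · rw [hρ1 x hx]; exact (hiff x).symm
    · rw [hρ2 x hx]
  -- image of a subset of E, and of a set disjoint from E
  have him1 : ∀ F : Set Om, F ⊆ E → ρ • F = σ • F := by
    intro F hF
    ext w
    rw [Set.mem_smul_set, Set.mem_smul_set]
    constructor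
    · rintro ⟨y, hy, rfl⟩; exact ⟨y, hy, (hρ1 y (hF hy)).symm⟩
    · rintro ⟨y, hy, rfl⟩; exact ⟨y, hy, hρ1 y (hF hy)⟩
  have him2 : ∀ F : Set Om, Disjoint E F → ρ • F = F := by
    intro F hF
    ext w
    rw [Set.mem_smul_set]
    constructor
    · rintro ⟨y, hy, rfl⟩
      have : ρ y = y := hρ2 y (fun h => disjoint_left.1 hF h hy)
      show ρ y ∈ F
      rw [this]; exact hy
    · intro hw
      exact ⟨w, hw, hρ2 w (fun h => disjoint_left.1 hF h hw)⟩
  have him : ∀ F ∈ HT, ρ • F = F ∨ ρ • F = σ • F := by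
    intro F hF
    rcases lam hE hF with h | h | h | h
    · left
      have h1 : Disjoint E Fᶜ := by
        rw [disjoint_left]; intro x hx hx'; exact hx' (h hx)
      have h2 := him2 _ h1
      rw [Set.smul_set_compl, compl_inj_iff] at h2
      exact h2
    · right; exact him1 F h
    · left; exact him2 F h
    · right
      have h1 : Fᶜ ⊆ E := by
        intro x hx
        have : x ∈ E ∪ F := by rw [h]; trivial
        rcases this with h2 | h2
        · exact h2
        · exact absurd h2 hx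
      have h2 := him1 _ h1
      rw [Set.smul_set_compl, Set.smul_set_compl, compl_inj_iff] at h2
      exact h2
  refine ⟨ρ, ?_, hρ1, hρ2⟩
  rw [mem_G_iff]
  intro F
  constructor
  · intro h
    -- F = ρ⁻¹ • (ρ • F); show that ρ⁻¹ preserves half-trees
    have key : ∀ K ∈ HT, ρ⁻¹ • K ∈ HT := by
      intro K hK
      have hK' : σ⁻¹ • K ∈ HT := smul_ht (G.inv_mem hσ) hK
      rcases him K hK with h1 | h1
      · have : ρ⁻¹ • K = K := by rw [inv_smul_eq_iff]; exact h1.symm
        rw [this]; exact hK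
      · rcases him _ hK' with h2 | h2
        · -- then σ⁻¹ K is ρ-invariant
          rcases lam hE hK with h3 | h3 | h3 | h3
          · have h4 : Disjoint E Kᶜ := by
              rw [disjoint_left]; intro x hx hx'; exact hx' (h3 hx)
            have h5 := him2 _ h4
            rw [Set.smul_set_compl, compl_inj_iff] at h5
            have : ρ⁻¹ • K = K := by rw [inv_smul_eq_iff]; exact h5.symm
            rw [this]; exact hK
          · have h4 : σ⁻¹ • K ⊆ E := by
              intro x hx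
              rw [Set.mem_inv_smul_set_iff] at hx
              exact (hiff x).2 (h3 hx)
            have h5 := him1 _ h4
            rw [smul_inv_smul] at h5
            have : ρ⁻¹ • K = σ⁻¹ • K := by rw [inv_smul_eq_iff]; exact h5.symm
            rw [this]; exact hK'
          · have h5 := him2 _ h3
            have : ρ⁻¹ • K = K := by rw [inv_smul_eq_iff]; exact h5.symm
            rw [this]; exact hK
          · have h4 : (σ⁻¹ • K)ᶜ ⊆ E := by
              intro x hx
              rw [mem_compl_iff, Set.mem_inv_smul_set_iff] at hx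
              have : σ x ∈ E ∪ K := by rw [h3]; trivial
              rcases this with h6 | h6
              · exact (hiff x).2 h6
              · exact absurd h6 hx
            have h5 := him1 _ h4
            rw [Set.smul_set_compl, Set.smul_set_compl, compl_inj_iff, smul_inv_smul] at h5
            have : ρ⁻¹ • K = σ⁻¹ • K := by rw [inv_smul_eq_iff]; exact h5.symm
            rw [this]; exact hK'
        · rw [smul_inv_smul] at h2
          have : ρ⁻¹ • K = σ⁻¹ • K := by rw [inv_smul_eq_iff]; exact h2.symm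
          rw [this]; exact hK'
    have := key _ h
    rwa [inv_smul_smul] at this
  · intro h
    rcases him F h with h1 | h1
    · rw [h1]; exact h
    · rw [h1]; exact smul_ht hσ h

theorem zmod2_eq_one {x : ZMod 2} (h : x ≠ 0) : x = 1 := by
  revert h
  revert x
  decide

theorem move_none (a : Om) : ∃ g ∈ G, g a = none := by
  cases a with
  | none => exact ⟨1, G.one_mem, rfl⟩
  | some f =>
    refine ⟨ivp * tr (-f), G.mul_mem ivp_mem (tr_mem _), ?_⟩
    show iv (some (f + -f)) = none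
    rw [add_neg_cancel, iv_zero]

theorem move_pair {a e : Om} (hae : a ≠ e) : ∃ g ∈ G, g a = none ∧ g e = some 0 := by
  obtain ⟨g1, h1, h2⟩ := move_none a
  have h3 : g1 e ≠ none := by
    rw [← h2]; intro h; exact hae (g1.injective h).symm
  obtain ⟨f, hf⟩ := Option.ne_none_iff_exists'.1 h3
  refine ⟨tr (-f) * g1, G.mul_mem (tr_mem _) h1, ?_, ?_⟩
  · show tr (-f) (g1 a) = none
    rw [h2]; rfl
  · show tr (-f) (g1 e) = some 0
    rw [hf, tr_some, add_neg_cancel]

/-- piecewise linear order automorphism -/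
noncomputable def pl (a b : ℚ) (ha : 0 < a) (hb : 0 < b) : ℚ ≃o ℚ where
  toFun t := if t ≤ 0 then a * t else b * t
  invFun t := if t ≤ 0 then a⁻¹ * t else b⁻¹ * t
  left_inv := by
    intro t
    by_cases h : t ≤ 0
    · have h1 : a * t ≤ 0 := mul_nonpos_of_nonneg_of_nonpos ha.le h
      simp only [h, h1, if_true]
      field_simp
    · have h1 : ¬ b * t ≤ 0 := by
        push Not at h ⊢
        exact mul_pos hb h
      simp only [h, h1, if_false]
      field_simp
  right_inv := by
    intro t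
    by_cases h : t ≤ 0
    · have h1 : a⁻¹ * t ≤ 0 := mul_nonpos_of_nonneg_of_nonpos (inv_pos.2 ha).le h
      simp only [h, h1, if_true]
      field_simp
    · have h1 : ¬ b⁻¹ * t ≤ 0 := by
        push Not at h ⊢
        exact mul_pos (inv_pos.2 hb) h
      simp only [h, h1, if_false]
      field_simp
  map_rel_iff' := by
    intro s t
    show (if s ≤ 0 then a * s else b * s) ≤ (if t ≤ 0 then a * t else b * t) ↔ s ≤ t
    by_cases hs : s ≤ 0 <;> by_cases ht : t ≤ 0
    · simp only [hs, ht, if_true]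
      exact mul_le_mul_iff_right₀ ha
    · simp only [hs, ht, if_true, if_false]
      push Not at ht
      constructor
      · intro _; linarith
      · intro _
        have h1 : a * s ≤ 0 := mul_nonpos_of_nonneg_of_nonpos ha.le hs
        have h2 : 0 < b * t := mul_pos hb ht
        linarith
    · simp only [hs, ht, if_true, if_false]
      push Not at hs
      constructor
      · intro h
        have h1 : a * t ≤ 0 := mul_nonpos_of_nonneg_of_nonpos ha.le ht
        have h2 : 0 < b * s := mul_pos hb hs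
        linarith
      · intro h; linarith
    · simp only [hs, ht, if_false]
      exact mul_le_mul_iff_right₀ hb

theorem exists_oa {q1 q2 q3 : ℚ} (h12 : q1 < q2) (h23 : q2 < q3) :
    ∃ φ : ℚ ≃o ℚ, φ q1 = -1 ∧ φ q2 = 0 ∧ φ q3 = 1 := by
  have ha : 0 < (q2 - q1)⁻¹ := inv_pos.2 (by linarith)
  have hb : 0 < (q3 - q2)⁻¹ := inv_pos.2 (by linarith)
  refine ⟨(OrderIso.addRight (-q2)).trans (pl _ _ ha hb), ?_, ?_, ?_⟩
  · show (if q1 + -q2 ≤ 0 then (q2 - q1)⁻¹ * (q1 + -q2) else (q3 - q2)⁻¹ * (q1 + -q2)) = -1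
    rw [if_pos (by linarith)]
    have h1 : q2 - q1 ≠ 0 := (sub_pos.2 h12).ne'
    field_simp
    ring
  · show (if q2 + -q2 ≤ 0 then (q2 - q1)⁻¹ * (q2 + -q2) else (q3 - q2)⁻¹ * (q2 + -q2)) = 0
    rw [if_pos (by linarith)]
    ring
  · show (if q3 + -q2 ≤ 0 then (q2 - q1)⁻¹ * (q3 + -q2) else (q3 - q2)⁻¹ * (q3 + -q2)) = 1
    rw [if_neg (by linarith)]
    have h1 : q3 - q2 ≠ 0 := (sub_pos.2 h23).ne'
    field_simp
    ring

theorem MS.oa {f : X} {q : ℚ} (h : MS f q) (φ : ℚ ≃o ℚ) :
    MS (Finsupp.equivMapDomain φ.toEquiv f) (φ q) := by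
  constructor
  · rw [oa_app, OrderIso.symm_apply_apply]; exact h.1
  · intro t ht
    rw [oa_app]
    apply h.2
    rw [← φ.lt_iff_lt, OrderIso.apply_symm_apply]
    exact ht

/-- the standard functions -/
noncomputable def dd (p : ℚ) : X := Finsupp.single p 1

theorem dd_self (p : ℚ) : dd p p = 1 := by simp [dd]

theorem dd_ne {p q : ℚ} (h : p ≠ q) : dd p q = 0 := by
  simp [dd, h]

theorem MS_dd (p : ℚ) : MS (dd p) p := by
  refine ⟨by rw [dd_self]; exact one_ne_zero, ?_⟩
  intro t ht
  exact dd_ne ht.ne'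

/-- inside a cone we may normalise one function -/
theorem normalise {f : X} {p : ℚ} (h : MS f p) : ∃ g ∈ G, g (some f) = some (dd p) ∧
    g none = none ∧ ∀ k : X, k p = 0 → g (some k) = some k := by
  have hI : IsLowerSet (Iic p) := isLowerSet_Iic p
  have h1 : tr (dd p - f) • cone (dd p) (Iic p) = cone (dd p) (Iic p) := by
    rw [tr_cone]
    ext w
    cases w with
    | none =>
      constructor
      · intro h1; exact absurd h1 (none_notMem_cone _ _)
      · intro h1; exact absurd h1 (none_notMem_cone _ _)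
    | some k =>
      rw [some_mem_cone, some_mem_cone]
      have h2 : ∀ q ∈ Iic p, (dd p + (dd p - f)) q = dd p q := by
        intro q hq
        rw [Finsupp.add_apply, Finsupp.sub_apply]
        rcases eq_or_lt_of_le (show q ≤ p from hq) with h3 | h3
        · rw [h3, zmod2_eq_one h.1, dd_self]; ring
        · rw [h.2 q h3, dd_ne h3.ne']; ring
      constructor
      · intro h3 q hq; rw [h3 q hq, h2 q hq]
      · intro h3 q hq; rw [h3 q hq, h2 q hq]
  obtain ⟨g, hg, hg1, hg2⟩ := surgery _ (tr_mem (dd p - f)) _ (cone_mem hI) h1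
  refine ⟨g, hg, ?_, ?_, ?_⟩
  · rw [hg1 (some f), tr_some]
    · congr 1
      abel
    · rw [some_mem_cone]
      intro q hq
      rcases eq_or_lt_of_le (show q ≤ p from hq) with h3 | h3
      · rw [h3, zmod2_eq_one h.1, dd_self]
      · rw [h.2 q h3, dd_ne h3.ne']
  · exact hg2 _ (none_notMem_cone _ _)
  · intro k hk
    apply hg2
    intro h2
    have h3 := some_mem_cone.1 h2 p (mem_Iic.2 le_rfl)
    rw [hk, dd_self] at h3
    exact absurd h3 (by decide)

/-- three functions with increasing least support elements can be normalised -/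
theorem normal3 {f1 f2 f3 : X} {q1 q2 q3 : ℚ} (h1 : MS f1 q1) (h2 : MS f2 q2) (h3 : MS f3 q3)
    (h12 : q1 < q2) (h23 : q2 < q3) : ∃ g ∈ G, g none = none ∧ g (some 0) = some 0 ∧
      g (some f1) = some (dd (-1)) ∧ g (some f2) = some (dd 0) ∧ g (some f3) = some (dd 1) := by
  obtain ⟨φ, hφ1, hφ2, hφ3⟩ := exists_oa h12 h23
  have k1 := h1.oa φ
  have k2 := h2.oa φ
  have k3 := h3.oa φ
  rw [hφ1] at k1
  rw [hφ2] at k2
  rw [hφ3] at k3
  obtain ⟨g1, m1, n1, o1, r1⟩ := normalise k1
  obtain ⟨g2, m2, n2, o2, r2⟩ := normalise k2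
  obtain ⟨g3, m3, n3, o3, r3⟩ := normalise k3
  have z : Finsupp.equivMapDomain φ.toEquiv (0 : X) = 0 := by
    ext q
    rw [oa_app]; rfl
  refine ⟨g3 * g2 * g1 * oa φ, G.mul_mem (G.mul_mem (G.mul_mem m3 m2) m1) (oa_mem φ), ?_, ?_, ?_,
    ?_, ?_⟩
  · show g3 (g2 (g1 (oa φ none))) = none
    rw [oa_none, o1, o2, o3]
  · show g3 (g2 (g1 (oa φ (some 0)))) = some 0
    rw [oa_some, z, r1 0 rfl, r2 0 rfl, r3 0 rfl]
  · show g3 (g2 (g1 (oa φ (some f1)))) = some (dd (-1))
    rw [oa_some, n1, r2 _ (dd_ne (by norm_num)), r3 _ (dd_ne (by norm_num))]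
  · show g3 (g2 (g1 (oa φ (some f2)))) = some (dd 0)
    rw [oa_some, r1 _ (k2.2 _ (by norm_num)), n2, r3 _ (dd_ne (by norm_num))]
  · show g3 (g2 (g1 (oa φ (some f3)))) = some (dd 1)
    rw [oa_some, r1 _ (k3.2 _ (by norm_num)), r2 _ (k3.2 _ (by norm_num)), n3]

/-- every half-tree containing `none` but not `some 0` is the complement of a cone of `0` -/
theorem ht_none {E : Set Om} (hE : E ∈ HT) (h1 : none ∈ E) (h2 : some 0 ∉ E) :
    ∃ I : Set ℚ, IsLowerSet I ∧ E = (cone 0 I)ᶜ := by
  obtain ⟨f, I, hI, h | h⟩ := hE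
  · rw [h] at h1; exact absurd h1 (none_notMem_cone _ _)
  · refine ⟨I, hI, ?_⟩
    rw [h, mem_compl_iff, not_not, some_mem_cone] at h2
    rw [h]
    congr 1
    ext w
    cases w with
    | none =>
      constructor
      · intro h1; exact absurd h1 (none_notMem_cone _ _)
      · intro h1; exact absurd h1 (none_notMem_cone _ _)
    | some k =>
      rw [some_mem_cone, some_mem_cone]
      constructor
      · intro h3 q hq; rw [h3 q hq, h2 q hq]
      · intro h3 q hq; rw [h3 q hq, h2 q hq]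

/-- linear tuples can be moved to the standard tuple -/
theorem move_linear {a b c d e : Om} (hab : a ≠ b) (hde : d ≠ e) {E F : Set Om} (hE : E ∈ HT)
    (hF : F ∈ HT) (hEF : E ⊆ F) (ha : a ∈ E) (hb : b ∈ E) (hc : c ∈ F) (hc' : c ∉ E)
    (hd : d ∉ F) (he : e ∉ F) : ∃ g ∈ G, g a = none ∧ g b = some (dd (-1)) ∧ g c = some (dd 0) ∧
      g d = some (dd 1) ∧ g e = some 0 := by
  have hae : a ≠ e := by rintro rfl; exact he (hEF ha)
  have hac : a ≠ c := by rintro rfl; exact hc' ha
  have had : a ≠ d := by rintro rfl; exact hd (hEF ha)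
  have hbe : b ≠ e := by rintro rfl; exact he (hEF hb)
  have hce : c ≠ e := by rintro rfl; exact he hc
  obtain ⟨g, hg, ga, ge⟩ := move_pair hae
  have key : ∀ x, x ≠ a → x ≠ e → ∃ f q, g x = some f ∧ MS f q := by
    intro x hx1 hx2
    have h1 : g x ≠ none := by rw [← ga]; intro h; exact hx1 (g.injective h)
    obtain ⟨f, hf⟩ := Option.ne_none_iff_exists'.1 h1
    have h2 : f ≠ 0 := by
      rintro rfl
      rw [← ge] at hf
      exact hx2 (g.injective hf)
    obtain ⟨q, hq⟩ := MS.exists h2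
    exact ⟨f, q, hf, hq⟩
  obtain ⟨fb, qb, gb, msb⟩ := key b hab.symm hbe
  obtain ⟨fc, qc, gc, msc⟩ := key c hac.symm hce
  obtain ⟨fd, qd, gd, msd⟩ := key d had.symm hde
  obtain ⟨I, hI, hEI⟩ := ht_none (smul_ht hg hE) (by rw [← ga, mem_smul_iff']; exact ha)
    (by rw [← ge, mem_smul_iff']; exact fun h => he (hEF h))
  obtain ⟨J, hJ, hFJ⟩ := ht_none (smul_ht hg hF) (by rw [← ga, mem_smul_iff']; exact hEF ha)
    (by rw [← ge, mem_smul_iff']; exact he)
  have memI : ∀ x f q, g x = some f → MS f q → (x ∈ E ↔ q ∈ I) := by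
    intro x f q h1 h2
    rw [← mem_smul_iff' g E x, hEI, h1, mem_compl_iff, some_mem_cone]
    have h3 := h2.mem_iff hI
    have h4 : (∀ q ∈ I, f q = (0 : X) q) ↔ (∀ t ∈ I, f t = 0) := Iff.rfl
    rw [h4, h3, not_not]
  have memJ : ∀ x f q, g x = some f → MS f q → (x ∈ F ↔ q ∈ J) := by
    intro x f q h1 h2
    rw [← mem_smul_iff' g F x, hFJ, h1, mem_compl_iff, some_mem_cone]
    have h3 := h2.mem_iff hJ
    have h4 : (∀ q ∈ J, f q = (0 : X) q) ↔ (∀ t ∈ J, f t = 0) := Iff.rfl
    rw [h4, h3, not_not]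
  have hbc : qb < qc := by
    by_contra h
    push Not at h
    exact hc' ((memI c fc qc gc msc).2 (hI h ((memI b fb qb gb msb).1 hb)))
  have hcd : qc < qd := by
    by_contra h
    push Not at h
    exact hd ((memJ d fd qd gd msd).2 (hJ h ((memJ c fc qc gc msc).1 hc)))
  obtain ⟨k, hk, k1, k2, k3, k4, k5⟩ := normal3 msb msc msd hbc hcd
  refine ⟨k * g, G.mul_mem hk hg, ?_, ?_, ?_, ?_, ?_⟩
  · show k (g a) = _; rw [ga, k1]
  · show k (g b) = _; rw [gb, k3]
  · show k (g c) = _; rw [gc, k4]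
  · show k (g d) = _; rw [gd, k5]
  · show k (g e) = _; rw [ge, k2]

/-! ### splitting four points -/

theorem split4 {a b c d : Om} (hab : a ≠ b) (hac : a ≠ c) (had : a ≠ d) (hbc : b ≠ c)
    (hbd : b ≠ d) : ∃ E ∈ HT, a ∈ E ∧ ((b ∈ E ∧ c ∉ E ∧ d ∉ E) ∨
      (c ∈ E ∧ b ∉ E ∧ d ∉ E) ∨ (d ∈ E ∧ b ∉ E ∧ c ∉ E)) := by
  obtain ⟨g, hg, ga, gb⟩ := move_pair hab
  have key : ∀ x, x ≠ a → x ≠ b → ∃ f q, g x = some f ∧ MS f q := by
    intro x hx1 hx2
    have h1 : g x ≠ none := by rw [← ga]; intro h; exact hx1 (g.injective h)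
    obtain ⟨f, hf⟩ := Option.ne_none_iff_exists'.1 h1
    have h2 : f ≠ 0 := by
      rintro rfl
      rw [← gb] at hf
      exact hx2 (g.injective hf)
    obtain ⟨q, hq⟩ := MS.exists h2
    exact ⟨f, q, hf, hq⟩
  obtain ⟨fc, qc, gc, mc⟩ := key c hac.symm hbc.symm
  obtain ⟨fd, qd, gd, md⟩ := key d had.symm hbd.symm
  -- pull back
  have pull : ∀ E0 ∈ HT, ∃ E ∈ HT, ∀ x, x ∈ E ↔ g x ∉ E0 := by
    intro E0 hE0
    refine ⟨g⁻¹ • E0ᶜ, smul_ht (G.inv_mem hg) (compl_mem hE0), ?_⟩
    intro x
    rw [Set.mem_inv_smul_set_iff]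
    rfl
  rcases lt_trichotomy qc qd with h | h | h
  · obtain ⟨E, hE, h1⟩ := pull (cone 0 (Iic qc)) (cone_mem (isLowerSet_Iic _))
    refine ⟨E, hE, ?_, Or.inr (Or.inl ⟨?_, ?_, ?_⟩)⟩
    · rw [h1, ga]; exact none_notMem_cone _ _
    · rw [h1, gc, some_mem_cone]
      intro h2
      exact mc.1 (h2 qc (mem_Iic.2 le_rfl))
    · rw [h1, gb, some_mem_cone, not_not]
      intro q _; rfl
    · rw [h1, gd, some_mem_cone, not_not]
      intro q hq
      exact md.2 q (lt_of_le_of_lt hq h)
  · subst h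
    obtain ⟨E, hE, h1⟩ := pull (cone fc (Iic qc)) (cone_mem (isLowerSet_Iic _))
    refine ⟨E, hE, ?_, Or.inl ⟨?_, ?_, ?_⟩⟩
    · rw [h1, ga]; exact none_notMem_cone _ _
    · rw [h1, gb, some_mem_cone]
      intro h2
      exact mc.1 (h2 qc (mem_Iic.2 le_rfl)).symm
    · rw [h1, gc, some_mem_cone, not_not]
      intro q _; rfl
    · rw [h1, gd, some_mem_cone, not_not]
      intro q hq
      rcases eq_or_lt_of_le (show q ≤ qc from hq) with h3 | h3
      · rw [h3, zmod2_eq_one mc.1, zmod2_eq_one md.1]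
      · rw [mc.2 q h3, md.2 q h3]
  · obtain ⟨E, hE, h1⟩ := pull (cone 0 (Iic qd)) (cone_mem (isLowerSet_Iic _))
    refine ⟨E, hE, ?_, Or.inr (Or.inr ⟨?_, ?_, ?_⟩)⟩
    · rw [h1, ga]; exact none_notMem_cone _ _
    · rw [h1, gd, some_mem_cone]
      intro h2
      exact md.1 (h2 qd (mem_Iic.2 le_rfl))
    · rw [h1, gb, some_mem_cone, not_not]
      intro q _; rfl
    · rw [h1, gc, some_mem_cone, not_not]
      intro q hq
      exact mc.2 q (lt_of_le_of_lt hq h)

/-- the standard five points -/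
noncomputable def std : Set Om := {none, some (dd (-1)), some (dd 0), some (dd 1), some 0}

theorem to_std_aux {p q r s t : Om} (hpq : p ≠ q) (hrs : r ≠ s) (hrt : r ≠ t) (hst : s ≠ t)
    {E : Set Om} (hE : E ∈ HT) (hp : p ∈ E) (hq : q ∈ E) (hr : r ∉ E) (hs : s ∉ E) (ht : t ∉ E) :
    ∃ g ∈ G, (g '' {p, q, r, s, t} : Set Om) = std := by
  have hpr : p ≠ r := by rintro rfl; exact hr hp
  have hps : p ≠ s := by rintro rfl; exact hs hp
  have hpt : p ≠ t := by rintro rfl; exact ht hp
  have key : ∀ c d e : Om, d ≠ e → c ∉ E → d ∉ E → e ∉ E → (∃ F ∈ HT, p ∈ F ∧ c ∈ F ∧ d ∉ F ∧ e ∉ F) →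
      ∃ g ∈ G, g p = none ∧ g q = some (dd (-1)) ∧ g c = some (dd 0) ∧
      g d = some (dd 1) ∧ g e = some 0 := by
    rintro c d e hde hc hd he ⟨F, hF, h1, h2, h3, h4⟩
    have hEF : E ⊆ F := by
      rcases lam hE hF with h | h | h | h
      · exact h
      · exact absurd (h h2) hc
      · exact absurd h1 (disjoint_left.1 h hp)
      · have : d ∈ E ∪ F := by rw [h]; trivial
        rcases this with h5 | h5
        · exact absurd h5 hd
        · exact absurd h5 h3
    exact move_linear hpq hde hE hF hEF hp hq h2 hc h3 h4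
  obtain ⟨F, hF, h1, h2 | h2 | h2⟩ := split4 hpr hps hpt hrs hrt
  · obtain ⟨g, hg, g1, g2, g3, g4, g5⟩ := key r s t hst hr hs ht ⟨F, hF, h1, h2⟩
    refine ⟨g, hg, ?_⟩
    rw [image_insert_eq, image_insert_eq, image_insert_eq, image_pair, g1, g2, g3, g4, g5]
    rfl
  · obtain ⟨g, hg, g1, g2, g3, g4, g5⟩ := key s r t hrt hs hr ht ⟨F, hF, h1, h2⟩
    refine ⟨g, hg, ?_⟩
    rw [image_insert_eq, image_insert_eq, image_insert_eq, image_pair, g1, g2, g3, g4, g5]
    unfold std
    ext x
    simp only [mem_insert_iff, mem_singleton_iff]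
    tauto
  · obtain ⟨g, hg, g1, g2, g3, g4, g5⟩ := key t r s hrs ht hr hs ⟨F, hF, h1, h2⟩
    refine ⟨g, hg, ?_⟩
    rw [image_insert_eq, image_insert_eq, image_insert_eq, image_pair, g1, g2, g3, g4, g5]
    unfold std
    ext x
    simp only [mem_insert_iff, mem_singleton_iff]
    tauto

/-- every five points may be moved onto the standard five points -/
theorem to_std (S : Finset Om) (hS : S.card = 5) : ∃ g ∈ G, (g '' (S : Set Om)) = std := by
  obtain ⟨x1, S1, hx1, rfl, hS1⟩ := Finset.card_eq_succ.1 hS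
  obtain ⟨x2, S2, hx2, rfl, hS2⟩ := Finset.card_eq_succ.1 hS1
  obtain ⟨x3, x4, x5, h34, h35, h45, rfl⟩ := Finset.card_eq_three.1 hS2
  simp only [Finset.mem_insert, Finset.mem_singleton, not_or] at hx1 hx2
  obtain ⟨h12, h13, h14, h15⟩ := hx1
  obtain ⟨h23, h24, h25⟩ := hx2
  have aux : ∀ p q r s : Om, p ≠ q → r ≠ s → p ≠ x5 → q ≠ x5 → r ≠ x5 → s ≠ x5 →
      (∃ E ∈ HT, p ∈ E ∧ q ∈ E ∧ r ∉ E ∧ s ∉ E) →
      ∃ g ∈ G, (g '' {p, q, r, s, x5} : Set Om) = std := by
    rintro p q r s hpq hrs hp5 hq5 hr5 hs5 ⟨E, hE, h1, h2, h3, h4⟩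
    by_cases h5 : x5 ∈ E
    · obtain ⟨g, hg, h6⟩ := to_std_aux (E := Eᶜ) hrs hpq hp5 hq5 (compl_mem hE) h3 h4
        (fun h => h h1) (fun h => h h2) (fun h => h h5)
      refine ⟨g, hg, ?_⟩
      rw [← h6, Set.insert_comm s p, Set.insert_comm r p, Set.insert_comm s q, Set.insert_comm r q]
    · exact to_std_aux hpq hrs hr5 hs5 hE h1 h2 h3 h4 h5
  obtain ⟨E, hE, h1, h2 | h2 | h2⟩ := split4 h12 h13 h14 h23 h24
  · obtain ⟨g, hg, h6⟩ := aux x1 x2 x3 x4 h12 h34 h15 h25 h35 h45 ⟨E, hE, h1, h2⟩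
    refine ⟨g, hg, ?_⟩
    rw [← h6]
    simp only [Finset.coe_insert, Finset.coe_singleton]
  · obtain ⟨g, hg, h6⟩ := aux x1 x3 x2 x4 h13 h24 h15 h35 h25 h45 ⟨E, hE, h1, h2⟩
    refine ⟨g, hg, ?_⟩
    rw [← h6, Set.insert_comm x3 x2]
    simp only [Finset.coe_insert, Finset.coe_singleton]
  · obtain ⟨g, hg, h6⟩ := aux x1 x4 x2 x3 h14 h23 h15 h45 h25 h35 ⟨E, hE, h1, h2⟩
    refine ⟨g, hg, ?_⟩
    rw [← h6, Set.insert_comm x4 x2, Set.insert_comm x4 x3]
    simp only [Finset.coe_insert, Finset.coe_singleton]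

theorem pinv (k : Equiv.Perm Om) (x : Om) : k⁻¹ (k x) = x := k.symm_apply_apply x

theorem pinv' (k : Equiv.Perm Om) (x : Om) : k (k⁻¹ x) = x := k.apply_symm_apply x

theorem homog5 (S T : Finset Om) (hS : S.card = 5) (hT : T.card = 5) :
    ∃ g ∈ G, S.map g.toEmbedding = T := by
  obtain ⟨g, hg, h1⟩ := to_std S hS
  obtain ⟨k, hk, h2⟩ := to_std T hT
  refine ⟨k⁻¹ * g, G.mul_mem (G.inv_mem hk) hg, ?_⟩
  rw [← Finset.coe_inj, Finset.coe_map]
  ext x
  have h3 : x ∈ (T : Set Om) ↔ k x ∈ std := by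
    rw [← h2]
    exact (k.injective.mem_set_image).symm
  rw [h3, ← h1]
  constructor
  · rintro ⟨y, hy, rfl⟩
    refine ⟨y, hy, ?_⟩
    show g y = k (k⁻¹ (g y))
    rw [pinv']
  · rintro ⟨y, hy, h4⟩
    refine ⟨y, hy, ?_⟩
    show k⁻¹ (g y) = x
    rw [h4, pinv]

/-- moving three points to standard position -/
theorem move3 {a b c : Om} (hab : a ≠ b) (hac : a ≠ c) (hbc : b ≠ c) :
    ∃ g ∈ G, g a = none ∧ g b = some (dd 0) ∧ g c = some 0 := by
  obtain ⟨g, hg, ga, gc⟩ := move_pair hac
  have h1 : g b ≠ none := by rw [← ga]; intro h; exact hab (g.injective h).symm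
  obtain ⟨f, hf⟩ := Option.ne_none_iff_exists'.1 h1
  have h2 : f ≠ 0 := by
    rintro rfl
    rw [← gc] at hf
    exact hbc (g.injective hf)
  obtain ⟨q, hq⟩ := MS.exists h2
  obtain ⟨k, hk, k1, k2, k3, k4, k5⟩ := normal3 (MS_dd (q - 1)) hq (MS_dd (q + 1))
    (by linarith) (by linarith)
  refine ⟨k * g, G.mul_mem hk hg, ?_, ?_, ?_⟩
  · show k (g a) = _; rw [ga, k1]
  · show k (g b) = _; rw [hf, k4]
  · show k (g c) = _; rw [gc, k2]

theorem trans3' {a b c a' b' c' : Om} (hab : a ≠ b) (hac : a ≠ c) (hbc : b ≠ c)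
    (hab' : a' ≠ b') (hac' : a' ≠ c') (hbc' : b' ≠ c') :
    ∃ g ∈ G, g a = a' ∧ g b = b' ∧ g c = c' := by
  obtain ⟨g, hg, g1, g2, g3⟩ := move3 hab hac hbc
  obtain ⟨k, hk, k1, k2, k3⟩ := move3 hab' hac' hbc'
  refine ⟨k⁻¹ * g, G.mul_mem (G.inv_mem hk) hg, ?_, ?_, ?_⟩
  · show k⁻¹ (g a) = _; rw [g1, ← k1, pinv]
  · show k⁻¹ (g b) = _; rw [g2, ← k2, pinv]
  · show k⁻¹ (g c) = _; rw [g3, ← k3, pinv]

theorem dd_ne_zero (p : ℚ) : dd p ≠ 0 := (MS_dd p).ne_zero

theorem dd_inj {p q : ℚ} (h : p ≠ q) : dd p ≠ dd q := by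
  intro h1
  have h2 : dd p p = dd q p := by rw [h1]
  rw [dd_self, dd_ne h.symm] at h2
  exact absurd h2 (by decide)

/-- no element of `G` sends a split `ab|cd` to `ac|bd` -/
theorem not4 : ¬ ∃ g ∈ G, g none = none ∧ g (some 0) = some (dd 0) ∧
    g (some (dd 0)) = some 0 ∧ g (some (dd 1)) = some (dd 1) := by
  rintro ⟨g, hg, h1, h2, h3, h4⟩
  have hE : cone 0 (Iic 0) ∈ HT := cone_mem (isLowerSet_Iic _)
  have e1 : (some 0 : Om) ∈ cone 0 (Iic 0) := some_mem_cone.2 (fun q _ => rfl)
  have e2 : (some (dd 1) : Om) ∈ cone 0 (Iic 0) := by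
    rw [some_mem_cone]
    intro q hq
    exact dd_ne (by
      intro h
      have : q ≤ 0 := hq
      linarith)
  have e3 : (some (dd 0) : Om) ∉ cone 0 (Iic 0) := by
    rw [some_mem_cone]
    intro h
    exact (MS_dd 0).1 (h 0 (mem_Iic.2 le_rfl))
  have e4 : (none : Om) ∉ cone 0 (Iic 0) := none_notMem_cone _ _
  have hF := smul_ht hg hE
  have f1 : some (dd 0) ∈ g • cone 0 (Iic 0) := by rw [← h2, mem_smul_iff']; exact e1
  have f2 : some (dd 1) ∈ g • cone 0 (Iic 0) := by rw [← h4, mem_smul_iff']; exact e2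
  have f3 : some 0 ∉ g • cone 0 (Iic 0) := by rw [← h3, mem_smul_iff']; exact e3
  have f4 : none ∉ g • cone 0 (Iic 0) := by rw [← h1, mem_smul_iff']; exact e4
  rcases lam hE hF with h | h | h | h
  · exact f3 (h e1)
  · exact e3 (h f1)
  · exact disjoint_left.1 h e2 f2
  · have : (none : Om) ∈ cone 0 (Iic 0) ∪ g • cone 0 (Iic 0) := by rw [h]; trivial
    rcases this with h5 | h5
    · exact e4 h5
    · exact f4 h5

/-- an element of `G` interchanging two points and fixing three others -/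
theorem swap_fix : ∃ g ∈ G, g none = none ∧ g (some 0) = some 0 ∧
    g (some (dd (-1))) = some (dd (-1)) ∧ g (some (dd 0)) = some (dd 0 + dd 1) ∧
    g (some (dd 0 + dd 1)) = some (dd 0) := by
  have h1 : tr (dd 1) • cone (dd 0) (Iic 0) = cone (dd 0) (Iic 0) := by
    rw [tr_cone]
    ext w
    cases w with
    | none =>
      constructor
      · intro h1; exact absurd h1 (none_notMem_cone _ _)
      · intro h1; exact absurd h1 (none_notMem_cone _ _)
    | some k =>
      rw [some_mem_cone, some_mem_cone]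
      have h2 : ∀ q ∈ Iic (0 : ℚ), (dd 0 + dd 1) q = dd 0 q := by
        intro q hq
        have : q ≤ 0 := hq
        rw [Finsupp.add_apply, dd_ne (p := 1) (by intro h; linarith), add_zero]
      constructor
      · intro h3 q hq; rw [h3 q hq, h2 q hq]
      · intro h3 q hq; rw [h3 q hq, h2 q hq]
  obtain ⟨g, hg, hg1, hg2⟩ := surgery _ (tr_mem (dd 1)) _ (cone_mem (isLowerSet_Iic _)) h1
  refine ⟨g, hg, ?_, ?_, ?_, ?_, ?_⟩
  · exact hg2 _ (none_notMem_cone _ _)
  · apply hg2
    rw [some_mem_cone]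
    intro h
    exact (MS_dd 0).1 (h 0 (mem_Iic.2 le_rfl)).symm
  · apply hg2
    rw [some_mem_cone]
    intro h
    have h2 := h 0 (mem_Iic.2 le_rfl)
    rw [dd_self, dd_ne (by norm_num)] at h2
    exact absurd h2 (by decide)
  · rw [hg1, tr_some]
    rw [some_mem_cone]
    intro q _; rfl
  · rw [hg1, tr_some]
    · congr 1
      rw [add_assoc]
      have : dd 1 + dd 1 = 0 := by
        ext q
        rw [Finsupp.add_apply]
        exact CharTwo.add_self_eq_zero _
      rw [this, add_zero]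
    · rw [some_mem_cone]
      intro q hq
      have : q ≤ 0 := hq
      rw [Finsupp.add_apply, dd_ne (p := 1) (by intro h; linarith), add_zero]


/-- `G` is `t`-homogeneous: transitive on the `t`-element subsets -/
def Homogeneous {X : Type} (G : Subgroup (Equiv.Perm X)) (t : ℕ) : Prop :=
  ∀ S T : Finset X, S.card = t → T.card = t → ∃ g ∈ G, S.map g.toEmbedding = T

/-- `G` is `t`-transitive: transitive on the ordered `t`-tuples of pairwise distinct elements -/
def Transitive {X : Type} (G : Subgroup (Equiv.Perm X)) (t : ℕ) : Prop :=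
  ∀ x y : Fin t → X, Function.Injective x → Function.Injective y → ∃ g ∈ G, ∀ i, g (x i) = y i

/-- strict total orders -/
structure IsLinearOrd {X : Type} (R : X → X → Prop) : Prop where
  irrefl : ∀ x, ¬ R x x
  trans : ∀ x y z, R x y → R y z → R x z
  total : ∀ x y, x ≠ y → R x y ∨ R y x

/-- circular orders -/
structure IsCircularOrd {X : Type} (C : X → X → X → Prop) : Prop where
  cyclic : ∀ x y z, C x y z → C y z x
  asymm : ∀ x y z, C x y z → ¬ C z y x
  trans : ∀ x y z w, C x y z → C x z w → C x y w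
  total : ∀ x y z, x ≠ y → y ≠ z → x ≠ z → C x y z ∨ C z y x

/-- every element of `G` maps the binary relation `R` to itself or to its converse -/
def PreservesPair2 {X : Type} (G : Subgroup (Equiv.Perm X)) (R : X → X → Prop) : Prop :=
  ∀ g ∈ G, (∀ x y, R (g x) (g y) ↔ R x y) ∨ (∀ x y, R (g x) (g y) ↔ R y x)

/-- every element of `G` maps the ternary relation `C` to itself or to its converse -/
def PreservesPair3 {X : Type} (G : Subgroup (Equiv.Perm X)) (C : X → X → X → Prop) : Prop :=
  ∀ g ∈ G, (∀ x y z, C (g x) (g y) (g z) ↔ C x y z) ∨ (∀ x y z, C (g x) (g y) (g z) ↔ C z y x)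

theorem dd01_ne : dd 0 ≠ dd 0 + dd 1 := by
  intro h
  have h1 : dd 0 1 = (dd 0 + dd 1) 1 := by rw [← h]
  rw [Finsupp.add_apply, dd_self, dd_ne (by norm_num)] at h1
  exact absurd h1 (by decide)

theorem no_linear (R : Om → Om → Prop) (hR : IsLinearOrd R) : ¬ PreservesPair2 G R := by
  intro h
  obtain ⟨g, hg, g1, g2, g3, g4, g5⟩ := swap_fix
  have has : ∀ x y, R x y → ¬ R y x := fun x y h1 h2 => hR.irrefl x (hR.trans x y x h1 h2)
  rcases h g hg with h1 | h1
  · have h2 := h1 (some (dd 0)) (some (dd 0 + dd 1))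
    rw [g4, g5] at h2
    rcases hR.total (some (dd 0)) (some (dd 0 + dd 1))
      (by intro h3; exact dd01_ne (Option.some_inj.1 h3)) with h3 | h3
    · exact has _ _ h3 (h2.2 h3)
    · exact has _ _ h3 (h2.1 h3)
  · have h2 := h1 none (some 0)
    rw [g1, g2] at h2
    rcases hR.total none (some 0) (by intro h3; cases h3) with h3 | h3
    · exact has _ _ h3 (h2.1 h3)
    · exact has _ _ h3 (h2.2 h3)

theorem no_circular (C : Om → Om → Om → Prop) (hC : IsCircularOrd C) : ¬ PreservesPair3 G C := by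
  intro h
  obtain ⟨g, hg, g1, g2, g3, g4, g5⟩ := swap_fix
  rcases h g hg with h1 | h1
  · have h2 := h1 none (some (dd 0)) (some (dd 0 + dd 1))
    rw [g1, g4, g5] at h2
    rcases hC.total none (some (dd 0)) (some (dd 0 + dd 1)) (by intro h3; cases h3)
      (by intro h3; exact dd01_ne (Option.some_inj.1 h3)) (by intro h3; cases h3) with h3 | h3
    · have h4 := h2.2 h3
      -- C none v u, hence C v u none, contradiction with C none u v
      exact hC.asymm _ _ _ h3 (hC.cyclic _ _ _ h4)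
    · -- C v u none gives C none v u
      have h4 := hC.cyclic _ _ _ (hC.cyclic _ _ _ h3)
      exact hC.asymm _ _ _ (h2.1 h4) h3
  · have h2 := h1 none (some 0) (some (dd (-1)))
    rw [g1, g2, g3] at h2
    rcases hC.total none (some 0) (some (dd (-1))) (by intro h3; cases h3)
      (by intro h3; exact dd_ne_zero (-1) (Option.some_inj.1 h3).symm) (by intro h3; cases h3)
      with h3 | h3
    · exact hC.asymm _ _ _ h3 (h2.1 h3)
    · exact hC.asymm _ _ _ h3 (h2.2 h3)

theorem trans3 : Transitive G 3 := by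
  intro x y hx hy
  obtain ⟨g, hg, g0, g1, g2⟩ := trans3' (a := x 0) (b := x 1) (c := x 2) (a' := y 0) (b' := y 1)
    (c' := y 2) (hx.ne (by decide)) (hx.ne (by decide)) (hx.ne (by decide))
    (hy.ne (by decide)) (hy.ne (by decide)) (hy.ne (by decide))
  refine ⟨g, hg, ?_⟩
  intro i
  fin_cases i
  · exact g0
  · exact g1
  · exact g2

theorem inj4 (a b c d : Om) (h1 : a ≠ b) (h2 : a ≠ c) (h3 : a ≠ d) (h4 : b ≠ c) (h5 : b ≠ d)
    (h6 : c ≠ d) : Function.Injective ![a, b, c, d] := by
  intro i j hij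
  fin_cases i <;> fin_cases j <;> first | rfl | (exfalso; first
    | exact h1 hij | exact h2 hij | exact h3 hij | exact h4 hij | exact h5 hij | exact h6 hij
    | exact h1 hij.symm | exact h2 hij.symm | exact h3 hij.symm | exact h4 hij.symm
    | exact h5 hij.symm | exact h6 hij.symm)

theorem ntrans4 : ¬ Transitive G 4 := by
  intro h
  have n0 : ∀ f : X, (none : Om) ≠ some f := fun f h => by cases h
  have n1 : (some 0 : Om) ≠ some (dd 0) := fun h => dd_ne_zero 0 (Option.some_inj.1 h).symm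
  have n2 : (some 0 : Om) ≠ some (dd 1) := fun h => dd_ne_zero 1 (Option.some_inj.1 h).symm
  have n3 : (some (dd 0) : Om) ≠ some (dd 1) := fun h =>
    dd_inj (p := 0) (q := 1) (by norm_num) (Option.some_inj.1 h)
  obtain ⟨g, hg, h1⟩ := h ![none, some 0, some (dd 0), some (dd 1)]
    ![none, some (dd 0), some 0, some (dd 1)]
    (inj4 _ _ _ _ (n0 _) (n0 _) (n0 _) n1 n2 n3)
    (inj4 _ _ _ _ (n0 _) (n0 _) (n0 _) n1.symm n3 n2)
  exact not4 ⟨g, hg, h1 0, h1 1, h1 2, h1 3⟩

instance : Infinite X := by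
  refine Infinite.of_injective (fun n : ℕ => dd (n : ℚ)) ?_
  intro m n h
  by_contra hne
  exact dd_inj (p := (m : ℚ)) (q := (n : ℚ)) (by exact_mod_cast hne) h

theorem result : ∃ (X : Type) (G : Subgroup (Equiv.Perm X)), Infinite X ∧
    Homogeneous G 5 ∧ Transitive G 3 ∧ ¬ Transitive G 4 ∧
    (∀ R : X → X → Prop, IsLinearOrd R → ¬ PreservesPair2 G R) ∧
    (∀ C : X → X → X → Prop, IsCircularOrd C → ¬ PreservesPair3 G C) :=
  ⟨Om, G, inferInstance, homog5, trans3, ntrans4, no_linear, no_circular⟩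

end Pool.Agent.Results.MP_deb208_al.Disproof
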